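import Pool.Agent.H77.SSA.Stmts

/-!
SSA module D2S: raising the bound at one coordinate.
-/

set_option linter.unusedVariables false

namespace SSA

open Filter

theorem ssa_d2s (hD2C : D2CStmt) (hAM : AMStmt) (hEXT : EXTStmt) (hRES : RESStmt) (hMONO : MONOStmt) :
    D2SStmt := by
  classical
  intro A g hcl hgA hB p hp hg Ψ hΨ
  have hpg := (hp.2.2 g hg).1
  have hok := (Ok_iff g p).1 (hp.2.2 g hg).2
  by_cases hne : ∃ ξ, p.dl g ≤ ξ ∧ ξ < p.ht
  swap
  · refine ⟨p, hp, LeF.refl _ _, ?_⟩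
    by_contra hcon
    exact hne ⟨p.dl g, le_rfl, not_le.1 hcon⟩
  -- enumeration of the new indices
  obtain ⟨η, hη⟩ : ∃ η : ℕ → Om, {ξ | p.dl g ≤ ξ ∧ ξ < p.ht} = Set.range η :=
    ((Om.countable_Iio p.ht).mono (fun ξ hξ => hξ.2)).exists_eq_range hne
  have hη1 : ∀ i, p.dl g ≤ η i ∧ η i < p.ht := fun i => by
    have : η i ∈ {ξ | p.dl g ≤ ξ ∧ ξ < p.ht} := by rw [hη]; exact ⟨i, rfl⟩
    exact this
  have hη2 : ∀ ξ, p.dl g ≤ ξ → ξ < p.ht → ∃ i, η i = ξ := fun ξ h1 h2 => by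
    have : ξ ∈ {ξ | p.dl g ≤ ξ ∧ ξ < p.ht} := ⟨h1, h2⟩
    rw [hη] at this
    exact this
  -- the names
  let E : ℕ → RC → ℕ → Prop := fun j s m => ∃ κ, s.Le (pre g (η (Nat.unpair j).1) (Nat.unpair j).2 κ) ∧
    g.val (η (Nat.unpair j).1) (Nat.unpair j).2 κ = m
  have hE : Nam (Dep g) E := by
    constructor
    · intro j r hr
      obtain ⟨r', h1, h2, κ, h3⟩ := hok.1 (η (Nat.unpair j).1) (Nat.unpair j).2 r hr
      exact ⟨r', h1, h2, _, κ, h3, rfl⟩
    · rintro j r s m _ _ hsr ⟨κ, h1, h2⟩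
      exact ⟨κ, hsr.trans h1, h2⟩
  let Φ : Finset Pos := Ψ.filter (fun t => t.1 ∈ Dep g)
  have hΦ : PosIn Φ (p.res (Dep g)) := fun t ht => by
    rw [Finset.mem_filter] at ht
    exact ⟨hΨ t ht.1, ht.2⟩
  obtain ⟨r, m, hr, hrp, _, hBd⟩ := hB E hE (p.res (Dep g)) (hRES A (Dep g) p (clo_dep g) hp) Φ hΦ
  obtain ⟨hq0, hq0p, hq0r⟩ := hAM A (Dep g) p r (clo_dep g) (hcl g hgA) hp hr hrp.1
  have hgr : g ∉ r.Z := fun h => not_mem_dep g (hr.2.1 h)
  have hht : p.ht ≤ r.ht := hrp.1.ht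
  have hxr : ∀ ξ < p.ht, r.x ξ = p.x ξ := hrp.1.x
  -- the combinatorial step
  have hcomb : ∀ n : ℕ, ∃ (st' : ℕ → St) (S' : Sl), (∀ k, (st' k).le (p.st g n k)) ∧
      (∀ k, (g, n, k) ∈ Ψ → st' k = p.st g n k) ∧
      {k | ∃ i, st' k = .hit i ∧ p.st g n k ≠ .hit i}.Finite ∧
      (∀ j ≤ n, ∃ k, m (Nat.pair j n) ≤ k ∧ st' k = .hit (p.x (η j) k)) ∧
      (∀ i, ∀ᶠ k in atTop, (st' k).excl (p.x (η i) k)) ∧
      (∀ ξ, p.ht ≤ ξ → ξ < r.ht → ∃ᶠ k in atTop, ∃ B, st' k = .opn B ∧ r.x ξ k ∈ B) ∧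
      (∀ k, (S' k).card ≤ k) ∧
      ∀ N, ∃ k, N ≤ k ∧ ∃ B, st' k = .opn B ∧ Finset.range (nb k) \ B ⊆ S' k ∧
        (S' k).card + N ≤ k := by
    intro n
    obtain ⟨S, hS, hS3⟩ := hpg.r3 n
    obtain ⟨st', S', h1, h2, h3, h4, h5, h6, h7, h8⟩ := hD2C (p.st g n) (fun i => p.x (η i))
      ((fun ξ => r.x ξ) '' {ξ | p.ht ≤ ξ ∧ ξ < r.ht})
      ((Ψ.filter (fun t => t.1 = g ∧ t.2.1 = n)).image (fun t => t.2.2))
      (fun i => m (Nat.pair i n)) S n
      (((Om.countable_Iio r.ht).mono (fun ξ hξ => hξ.2)).image _)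
      (fun k => hpg.leg n k)
      (fun i => hpg.c3 (η i) (hη1 i).1 (hη1 i).2 n)
      (fun i => hpg.c4 (η i) (hη1 i).1 (hη1 i).2 n)
      (by
        rintro w ⟨ξ, ⟨hξ1, hξ2⟩, rfl⟩
        refine ⟨fun k => hr.1.xb ξ hξ2 k, hrp.1.av ξ hξ1 hξ2 S hS, fun i => ?_⟩
        have h := hr.1.ed ξ hξ2 (η i) ((hη1 i).2.trans_le hht) (ne_of_gt ((hη1 i).2.trans_le hξ1))
        rw [hxr _ (hη1 i).2] at h
        exact h)
      (fun N => by
        obtain ⟨k, hk, B, hB⟩ := hS3 N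
        exact ⟨k, hk, B, hB⟩)
    refine ⟨st', S', h1, ?_, h3, h4, h5, ?_, h7, h8⟩
    · intro k hk
      refine h2 k ?_
      rw [Finset.mem_image]
      exact ⟨(g, n, k), by rw [Finset.mem_filter]; exact ⟨hk, rfl, rfl⟩, rfl⟩
    · intro ξ hξ1 hξ2
      exact h6 (r.x ξ) ⟨ξ, ⟨hξ1, hξ2⟩, rfl⟩
  choose st' S' h1 h2 h3 h4 h5 h6 h7 h8 using hcomb
  let q : RC :=
    { ht := (r.am p).ht
      x := (r.am p).x
      z := (r.am p).z
      Pi := (r.am p).Pi ∪ Set.range S'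
      Z := (r.am p).Z
      dl := fun a => if a = g then p.ht else (r.am p).dl a
      st := fun a => if a = g then st' else (r.am p).st a }
  have hqdl : q.dl g = p.ht := if_pos rfl
  have hqst : q.st g = st' := if_pos rfl
  have hqdl' : ∀ a, a ≠ g → q.dl a = (r.am p).dl a := fun a ha => if_neg ha
  have hqst' : ∀ a, a ≠ g → q.st a = (r.am p).st a := fun a ha => if_neg ha
  have h0dl : (r.am p).dl g = p.dl g := if_neg hgr
  have h0st : (r.am p).st g = p.st g := if_neg hgr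
  have hqq0 : q.Le (r.am p) := by
    refine ⟨le_rfl, fun _ _ => rfl, fun _ _ => rfl, Set.subset_union_left, ?_, subset_rfl, ?_, ?_⟩
    · intro ξ a b
      exact absurd b (not_lt.2 a)
    · intro a _
      by_cases ha : a = g
      · subst ha
        rw [hqdl, h0dl]
        exact hpg.dht
      · rw [hqdl' a ha]
    · intro a _ n k
      by_cases ha : a = g
      · subst ha
        rw [hqst, h0st]
        exact h1 n k
      · rw [hqst' a ha]
        exact St.le_refl _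
  have hqp : q.Le p := hqq0.trans hq0p
  have hVG : q.VG := by
    refine ⟨hq0.1.cPi.union (Set.countable_range _), ?_, hq0.1.cZ, hq0.1.xb, hq0.1.ed⟩
    rintro S (hS | ⟨n, rfl⟩) k
    · exact hq0.1.sl S hS k
    · exact h7 n k
  -- new hits are finitely many for each `n`
  have hhit : ∀ n, ∀ᶠ k in atTop, ∀ i, st' n k = .hit i → p.st g n k = .hit i := by
    intro n
    have h := (h3 n).eventually_cofinite_notMem
    rw [Nat.cofinite_eq_atTop] at h
    filter_upwards [h] with k hk i hi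
    by_contra hcon
    exact hk ⟨i, hi, hcon⟩
  have hVC : q.VC g := by
    refine ⟨?_, ?_, ?_, ?_, ?_, ?_, ?_⟩
    · rw [hqdl]; exact hht
    · intro n k
      rw [hqst]
      exact St.leg_mono (h1 n k) (hpg.leg n k)
    · intro ξ hξ n
      rw [hqdl] at hξ
      rw [hqst]
      have hx : q.x ξ = p.x ξ := hxr ξ hξ
      rw [hx]
      by_cases hξ' : ξ < p.dl g
      · filter_upwards [hpg.c1 ξ hξ' n] with k hk
        exact St.excl_mono (h1 n k) hk
      · obtain ⟨i, rfl⟩ := hη2 ξ (not_lt.1 hξ') hξ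
        exact h5 n i
    · intro ξ hξ1 hξ2 n
      rw [hqdl] at hξ1
      rw [hqst]
      exact h6 n ξ hξ1 hξ2
    · intro ξ hξ1 hξ2 n
      rw [hqdl] at hξ1
      rw [hqst]
      obtain ⟨T, hT, hT4⟩ := hpg.r4 n
      filter_upwards [hhit n, hT4, hrp.1.av ξ hξ1 hξ2 T hT] with k a b c d
      exact c (b _ (a _ d))
    · intro n
      rw [hqst]
      exact ⟨S' n, Or.inr ⟨n, rfl⟩, fun N => by
        obtain ⟨k, hk, B, hB⟩ := h8 n N
        exact ⟨k, hk, B, hB⟩⟩
    · intro n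
      rw [hqst]
      obtain ⟨T, hT, hT4⟩ := hpg.r4 n
      refine ⟨T, hqp.Pi hT, ?_⟩
      filter_upwards [hhit n, hT4] with k a b i hi
      exact b _ (a _ hi)
  -- the restriction of `q`
  have hZ : (q.res (Dep g)).Z = r.Z := by
    apply Set.Subset.antisymm
    · rintro a ⟨ha | ha, ha'⟩
      · exact ha
      · exact hrp.1.Z ⟨ha, ha'⟩
    · intro a ha
      exact ⟨Or.inl ha, hr.2.1 ha⟩
  have hrdl : ∀ a ∈ r.Z, q.dl a = r.dl a := by
    intro a ha
    rw [hqdl' a (fun e => hgr (e ▸ ha))]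
    exact if_pos ha
  have hrst : ∀ a ∈ r.Z, q.st a = r.st a := by
    intro a ha
    rw [hqst' a (fun e => hgr (e ▸ ha))]
    exact if_pos ha
  have hOk : Ok g q := by
    rw [Ok_iff]
    refine ⟨hok.1, fun ξ hξ => ?_⟩
    rw [hqdl] at hξ
    by_cases hξ' : ξ < p.dl g
    · exact hMONO g p q ξ (hp.lg.res _) hg hξ hqp (hok.2 ξ hξ')
    · obtain ⟨i, rfl⟩ := hη2 ξ (not_lt.1 hξ') hξ
      intro p' hp' N r1 hr1 hr1p'
      let q' : RC := { p' with Pi := r.Pi }
      have hsim : q'.Sim r := by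
        refine ⟨hp'.ht, hp'.x, hp'.z, rfl, hp'.Z.trans hZ, ?_, ?_, ?_⟩
        · intro a ha
          have := hp'.dl a (by rw [hZ]; exact ha)
          exact this.trans (hrdl a ha)
        · intro a ha
          exact hp'.leg a (by rw [hZ]; exact ha)
        · refine hp'.fin.subset ?_
          rintro ⟨a, n, k⟩ ⟨ha, hne'⟩
          refine ⟨by rw [hZ]; exact ha, fun e => hne' ?_⟩
          have e2 : p'.st a n k = q.st a n k := e
          show p'.st a n k = r.st a n k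
          rw [e2, hrst a ha]
      have hr1q' : r1.Le q' := by
        refine ⟨hr1p'.ht, hr1p'.x, hr1p'.z, ?_, ?_, hr1p'.Z, hr1p'.dl, hr1p'.st⟩
        · intro T hT
          refine hr1p'.Pi ?_
          rw [hp'.Pi]
          exact Or.inl hT
        · intro ζ a b T hT
          refine hr1p'.av ζ a b T ?_
          rw [hp'.Pi]
          exact Or.inl hT
      obtain ⟨J, hJ⟩ := hBd q' hsim
      let n := max N (max i J)
      have hj : J ≤ Nat.pair i n := by
        have := Nat.right_le_pair i n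
        omega
      obtain ⟨s, m', hs, hsr1, hm', κ, hκ1, hκ2⟩ := hJ (Nat.pair i n) hj r1 hr1 hr1q'
      rw [Nat.unpair_pair] at hκ1 hκ2
      obtain ⟨k, hk1, hk2⟩ := h4 n i (by omega)
      refine ⟨s, hs, hsr1, n, le_max_left _ _, k, κ, ?_, hκ1, ?_⟩
      · rw [hqst]
        have hx : q.x (η i) = p.x (η i) := hxr _ (hη1 i).2
        rw [hx]
        exact hk2
      · have h9 : g.val (η i) n κ = m' := hκ2
        rw [h9]
        exact hm'.trans hk1
  refine ⟨q, ?_, ⟨hqp, ?_⟩, hqdl.ge⟩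
  · refine hEXT A (r.am p) q hq0 hqq0 hVG hq0.2.1 ?_
    intro a ha
    by_cases hag : a = g
    · subst hag
      exact Or.inr ⟨hVC, hOk⟩
    · refine Or.inl ⟨ha, hqdl' a hag, fun n k => ?_⟩
      rw [hqst' a hag]
  · rintro ⟨a, n, k⟩ ht
    show q.st a n k = p.st a n k
    by_cases hag : a = g
    · subst hag
      rw [hqst]
      exact h2 n k ht
    · by_cases har : a ∈ r.Z
      · rw [hrst a har]
        have : ((a, n, k) : Pos) ∈ Φ := by
          rw [Finset.mem_filter]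
          exact ⟨ht, hr.2.1 har⟩
        exact hrp.2 _ this
      · rw [hqst' a hag]
        show (r.am p).st a n k = _
        unfold RC.am
        simp only
        rw [if_neg har]

end SSA
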