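import Pool.Agent.H77.SSA.Stmts

/-!
SSA module FUS: general fusion with bookkeeping.
-/

set_option linter.unusedVariables false

namespace SSA

open Filter

/-- raising the bound at finitely many coordinates -/
theorem d2_list {A : Set Crd} (hD : ∀ g ∈ A, D2 A g) : ∀ (L : List Crd) (p : RC), VA A p →
    (∀ g ∈ L, g ∈ p.Z) → ∀ Ψ, PosIn Ψ p → ∃ q, VA A q ∧ LeF Ψ q p ∧ ∀ g ∈ L, p.ht ≤ q.dl g
  | [], p, hp, _, Ψ, _ => ⟨p, hp, LeF.refl _ _, fun g hg => by simp at hg⟩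
  | (g :: L), p, hp, hL, Ψ, hΨ => by
    have hg : g ∈ p.Z := hL g (by simp)
    obtain ⟨q1, h1, h2, h3⟩ := hD g (hp.2.1 hg) p hp hg Ψ hΨ
    obtain ⟨q, h4, h5, h6⟩ := d2_list hD L q1 h1 (fun a ha => h2.1.Z (hL a (by simp [ha]))) Ψ
      (hΨ.of_le h2.1)
    refine ⟨q, h4, h5.trans h2, fun a ha => ?_⟩
    rcases List.mem_cons.mp ha with rfl | ha
    · exact h3.trans (h5.1.dl _ (h2.1.Z hg))
    · exact h2.1.ht.trans (h6 a ha)

theorem exists_en (Z : Set Crd) : ∃ e : ℕ → Crd, Z.Countable → ∀ g ∈ Z, ∃ a, e a = g := by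
  by_cases h : Z.Countable ∧ Z.Nonempty
  · obtain ⟨e, he⟩ := h.1.exists_eq_range h.2
    refine ⟨e, fun _ g hg => ?_⟩
    rw [he] at hg
    exact hg
  · refine ⟨fun _ => .base, fun hc g hg => ?_⟩
    exact absurd ⟨hc, g, hg⟩ h

/-- enumeration of a countable set of coordinates -/
noncomputable def en (Z : Set Crd) : ℕ → Crd := (exists_en Z).choose

theorem en_spec {Z : Set Crd} (h : Z.Countable) : ∀ g ∈ Z, ∃ a, en Z a = g := (exists_en Z).choose_spec h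

/-- the state of the construction -/
structure FSt : Type where
  p : RC
  Ψ : Finset Pos
  H : List RC

/-- the coordinates which are treated at the stage `s` -/
def inL (s : ℕ) (H : List RC) (g : Crd) : Prop := ∃ r ∈ H, ∃ a ≤ s, en r.Z a = g

/-- the properties of one step -/
structure FStep (A : Set Crd) (Q : ℕ → Finset Pos → RC → Prop) (s : ℕ) (S S' : FSt) (a : RC) : Prop where
  va : VA A a
  le : LeF S.Ψ a S.p
  task : Q s S.Ψ a
  va' : VA A S'.p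
  pos' : PosIn S'.Ψ S'.p
  le' : LeF S.Ψ S'.p a
  sub : S.Ψ ⊆ S'.Ψ
  hist : S'.H = S'.p :: S.H
  dl : ∀ g, inL s S.H g → g ∈ S.p.Z → a.ht ≤ S'.p.dl g
  fr : ∀ g, inL s S.H g → g ∈ S.p.Z → ∀ n ≤ s, ∀ k ≤ s, (g, n, k) ∈ S'.Ψ
  opn : ∀ g, inL s S.H g → g ∈ S.p.Z → ∀ n ≤ s, ∃ k B, s ≤ k ∧ (g, n, k) ∈ S'.Ψ ∧
    S'.p.st g n k = .opn B ∧ (Finset.range (nb k) \ B).card + s ≤ k

theorem fstep {A : Set Crd} (hD : ∀ g ∈ A, D2 A g) {Q : ℕ → Finset Pos → RC → Prop}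
    (hQ : ∀ s Ψ p, VA A p → PosIn Ψ p → ∃ q, VA A q ∧ LeF Ψ q p ∧ Q s Ψ q)
    (s : ℕ) (S : FSt) (h1 : VA A S.p) (h2 : PosIn S.Ψ S.p) :
    ∃ (S' : FSt) (a : RC), FStep A Q s S S' a := by
  classical
  obtain ⟨a, ha1, ha2, ha3⟩ := hQ s S.Ψ S.p h1 h2
  let L : List Crd := (S.H.flatMap (fun r => (List.range (s + 1)).map (en r.Z))).filter
    (fun g => decide (g ∈ S.p.Z))
  have hL : ∀ g, g ∈ L ↔ inL s S.H g ∧ g ∈ S.p.Z := by
    intro g
    simp only [L, List.mem_filter, List.mem_flatMap, List.mem_map, List.mem_range, decide_eq_true_eq,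
      inL]
    constructor
    · rintro ⟨⟨r, hr, i, hi, rfl⟩, h⟩
      exact ⟨⟨r, hr, i, by omega, rfl⟩, h⟩
    · rintro ⟨⟨r, hr, i, hi, rfl⟩, h⟩
      exact ⟨⟨r, hr, i, by omega, rfl⟩, h⟩
  obtain ⟨b, hb1, hb2, hb3⟩ := d2_list hD L a ha1 (fun g hg => ha2.1.Z ((hL g).1 hg).2) S.Ψ
    (h2.of_le ha2.1)
  have hbL : ∀ g ∈ L, g ∈ b.Z := fun g hg => hb2.1.Z (ha2.1.Z ((hL g).1 hg).2)
  -- open positions
  have hk : ∀ t : Crd × ℕ, ∃ k, t.1 ∈ L → ∃ B, s ≤ k ∧ b.st t.1 t.2 k = .opn B ∧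
      (Finset.range (nb k) \ B).card + s ≤ k := by
    intro t
    by_cases ht : t.1 ∈ L
    · obtain ⟨T, _, hT⟩ := (hb1.2.2 t.1 (hbL _ ht)).1.r3 t.2
      obtain ⟨k, hk, B, hB1, hB2, hB3⟩ := hT s
      refine ⟨k, fun _ => ⟨B, hk, hB1, ?_⟩⟩
      have := Finset.card_le_card hB2
      omega
    · exact ⟨0, fun h => absurd h ht⟩
  choose kk hkk using hk
  let Ψ' : Finset Pos := S.Ψ ∪ ((L.toFinset ×ˢ (Finset.range (s + 1) ×ˢ Finset.range (s + 1))) ∪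
    (L.toFinset ×ˢ Finset.range (s + 1)).image (fun t => (t.1, t.2, kk t)))
  have hΨ' : ∀ t ∈ Ψ', t ∈ S.Ψ ∨ t.1 ∈ L := by
    rintro ⟨g, n, k⟩ ht
    simp only [Ψ', Finset.mem_union, Finset.mem_product, List.mem_toFinset, Finset.mem_range,
      Finset.mem_image, Prod.mk.injEq, Prod.exists] at ht
    rcases ht with ht | ht | ht
    · exact Or.inl ht
    · exact Or.inr ht.1
    · obtain ⟨g', n', h, rfl, _⟩ := ht
      exact Or.inr h.1
  refine ⟨⟨b, Ψ', b :: S.H⟩, a, ha1, ha2, ha3, hb1, ?_, hb2, Finset.subset_union_left, rfl, ?_, ?_, ?_⟩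
  · intro t ht
    rcases hΨ' t ht with h | h
    · exact hb2.1.Z (ha2.1.Z (h2 t h))
    · exact hbL _ h
  · intro g hg hgp
    exact hb3 g ((hL g).2 ⟨hg, hgp⟩)
  · intro g hg hgp n hn k hk
    have h := (hL g).2 ⟨hg, hgp⟩
    simp only [Ψ', Finset.mem_union, Finset.mem_product, List.mem_toFinset, Finset.mem_range]
    exact Or.inr (Or.inl ⟨h, by omega, by omega⟩)
  · intro g hg hgp n hn
    have h := (hL g).2 ⟨hg, hgp⟩
    obtain ⟨B, hB1, hB2, hB3⟩ := hkk (g, n) h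
    refine ⟨kk (g, n), B, hB1, ?_, hB2, hB3⟩
    simp only [Ψ', Finset.mem_union, Finset.mem_image, Finset.mem_product, List.mem_toFinset,
      Finset.mem_range, Prod.exists, Prod.mk.injEq]
    exact Or.inr (Or.inr ⟨g, n, ⟨h, by omega⟩, rfl, rfl, rfl⟩)

theorem ssa_fus (hLim : LIMStmt) : FUSStmt := by
  classical
  intro A hD Q hQ p hp Φ hΦ
  -- the sequence of states
  let I : FSt → Prop := fun S => VA A S.p ∧ PosIn S.Ψ S.p
  have hstep : ∀ (s : ℕ) (S : {S : FSt // I S}), ∃ S' : {S : FSt // I S}, ∃ a, FStep A Q s S.1 S'.1 a := by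
    intro s S
    obtain ⟨S', a, h⟩ := fstep hD hQ s S.1 S.2.1 S.2.2
    exact ⟨⟨S', h.va', h.pos'⟩, a, h⟩
  choose nx aa hnx using hstep
  let S0 : {S : FSt // I S} := ⟨⟨p, Φ, [p]⟩, hp, hΦ⟩
  let S : ℕ → {S : FSt // I S} := fun s => Nat.rec S0 (fun s S => nx s S) s
  have hS0 : S 0 = S0 := rfl
  have hSs : ∀ s, S (s + 1) = nx s (S s) := fun s => rfl
  have hst : ∀ s, FStep A Q s (S s).1 (S (s + 1)).1 (aa s (S s)) := fun s => hnx s (S s)
  have hΨ : ∀ s, (S s).1.Ψ ⊆ (S (s + 1)).1.Ψ := fun s => (hst s).sub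
  have hΨ' : ∀ i j, i ≤ j → (S i).1.Ψ ⊆ (S j).1.Ψ := fun i j hij => monotone_nat_of_le_succ hΨ hij
  have hF : ∀ i, LeF (S i).1.Ψ (S (i + 1)).1.p (S i).1.p := fun i => (hst i).le'.trans (hst i).le
  have hle : ∀ i j, i ≤ j → (S j).1.p.Le (S i).1.p := by
    intro i j hij
    induction j, hij using Nat.le_induction with
    | base => exact RC.Le.refl _
    | succ j hij ih => exact (hF j).1.trans ih
  -- the history
  have hH : ∀ i j, i ≤ j → (S i).1.p ∈ (S j).1.H := by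
    intro i j hij
    induction j, hij using Nat.le_induction with
    | base =>
      cases i with
      | zero => rw [hS0]; exact List.mem_singleton.mpr rfl
      | succ i => rw [(hst i).hist]; exact List.mem_cons_self
    | succ j hij ih => rw [(hst j).hist]; exact List.mem_cons_of_mem _ ih
  have hin : ∀ i, ∀ g ∈ (S i).1.p.Z, ∃ s0, i ≤ s0 ∧ ∀ s, s0 ≤ s → inL s (S s).1.H g ∧ g ∈ (S s).1.p.Z := by
    intro i g hg
    obtain ⟨a, ha⟩ := en_spec (S i).2.1.1.cZ g hg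
    refine ⟨max i a, le_max_left _ _, fun s hs => ⟨⟨(S i).1.p, hH i s (by omega), a, by omega, ha⟩, ?_⟩⟩
    exact (hle i s (by omega)).Z hg
  obtain ⟨q, hq1, hq2, hq3⟩ := hLim A (fun i => (S i).1.p) (fun i => (S i).1.Ψ) (fun i => (S i).2.1)
    hF hΨ (fun i => (S i).2.2)
    (by
      intro i g hg n N
      obtain ⟨s0, h0, h1⟩ := hin i g hg
      obtain ⟨h2, h3⟩ := h1 (max s0 (max n N)) (le_max_left _ _)
      obtain ⟨k, B, hk1, hk2, hk3, hk4⟩ := (hst (max s0 (max n N))).opn g h2 h3 n (by omega)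
      exact ⟨max s0 (max n N) + 1, by omega, k, B, by omega, hk2, hk3, by omega⟩)
    (by
      intro i g hg ξ hξ
      obtain ⟨s0, h0, h1⟩ := hin i g hg
      obtain ⟨h2, h3⟩ := h1 s0 le_rfl
      refine ⟨s0 + 1, by omega, ?_⟩
      have h4 := (hst s0).dl g h2 h3
      have h5 := (hst s0).le.1.ht
      have h6 := (hle i s0 h0).ht
      exact hξ.trans_le (h6.trans (h5.trans h4)))
  refine ⟨fun s => aa s (S s), fun s => (S s).1.Ψ, q, hq1, hq2 0, fun s => ?_, ?_⟩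
  · refine ⟨(hst s).va, (S s).2.2.of_le (hst s).le.1, (hst s).task, ?_⟩
    exact ((hq2 (s + 1)).mono (hΨ s)).trans (hst s).le'
  · intro g hg n k
    obtain ⟨i, hi⟩ := hq3 g hg
    obtain ⟨s0, h0, h1⟩ := hin i g hi
    obtain ⟨h2, h3⟩ := h1 (max s0 (max n k)) (le_max_left _ _)
    refine ⟨max s0 (max n k) + 1, fun s hs => ?_⟩
    exact hΨ' _ s hs ((hst (max s0 (max n k))).fr g h2 h3 n (by omega) k (by omega))

end SSA
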