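import Pool.Agent.H77.SSA.Stmts

/-!
SSA module LIM: limits of fusion sequences.
-/

set_option linter.unusedVariables false

namespace SSA

open Filter

theorem lim_lub (f : ℕ → Om) : ∃ b, (∀ i, f i ≤ b) ∧ ∀ ξ < b, ∃ i, ξ < f i := by
  obtain ⟨c, hc⟩ := Om.bdd (Set.countable_range f)
  have hne : {b : Om | ∀ i, f i ≤ b}.Nonempty := ⟨c, fun i => (hc _ ⟨i, rfl⟩).le⟩
  refine ⟨WellFounded.min (wellFounded_lt (α := Om)) _ hne, ?_, ?_⟩
  · exact WellFounded.min_mem (wellFounded_lt (α := Om)) _ hne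
  · intro ξ hξ
    by_contra hcon
    push Not at hcon
    exact WellFounded.not_lt_min (wellFounded_lt (α := Om)) _ (show ξ ∈ {b : Om | ∀ i, f i ≤ b} from hcon) hξ

/-- the eventual value -/
noncomputable def limSt (p : ℕ → RC) (g : Crd) (n k : ℕ) : St := by
  classical
  exact if h : ∃ v, ∃ i, ∀ j, i ≤ j → (p j).st g n k = v then h.choose else .opn ∅

open Classical in
/-- the promise for open positions -/
noncomputable def limO (p : ℕ → RC) (g : Crd) (n k : ℕ) : Finset ℕ :=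
  match limSt p g n k with
  | .opn B => if (Finset.range (nb k) \ B).card ≤ k then Finset.range (nb k) \ B else ∅
  | .hit _ => ∅

/-- the promise for hits -/
noncomputable def limH (p : ℕ → RC) (g : Crd) (n k : ℕ) : Finset ℕ :=
  match limSt p g n k with
  | .opn _ => ∅
  | .hit i => if 1 ≤ k then {i} else ∅

theorem limO_card (p : ℕ → RC) (g : Crd) (n k : ℕ) : (limO p g n k).card ≤ k := by
  unfold limO
  split
  · split
    · assumption
    · simp
  · simp

theorem limH_card (p : ℕ → RC) (g : Crd) (n k : ℕ) : (limH p g n k).card ≤ k := by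
  unfold limH
  split
  · simp
  · split
    · simpa using ‹1 ≤ k›
    · simp

theorem ssa_lim (hM : MONOStmt) : LIMStmt := by
  classical
  intro A p Ψ hp hF hΨ hpos hopen hdl
  -- monotonicity
  have hΨ' : ∀ i j, i ≤ j → Ψ i ⊆ Ψ j := fun i j hij => monotone_nat_of_le_succ hΨ hij
  have hF' : ∀ i j, i ≤ j → LeF (Ψ i) (p j) (p i) := by
    intro i j hij
    induction j, hij using Nat.le_induction with
    | base => exact LeF.refl _ _
    | succ j hij ih => exact ((hF j).mono (hΨ' i j hij)).trans ih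
  have hle : ∀ i j, i ≤ j → (p j).Le (p i) := fun i j hij => (hF' i j hij).1
  -- eventual values
  have hst : ∀ i, ∀ g ∈ (p i).Z, ∀ n k, ∃ i', i ≤ i' ∧ ∀ j, i' ≤ j → (p j).st g n k = limSt p g n k := by
    intro i g hg n k
    have h1 : ∀ j, ((p (i + (j + 1))).st g n k).le ((p (i + j)).st g n k) := fun j =>
      (hle (i + j) (i + (j + 1)) (by omega)).st g ((hle i (i + j) (by omega)).Z hg) n k
    obtain ⟨a, ha⟩ := St.stab (fun j => (p (i + j)).st g n k) h1
    have h2 : ∃ v, ∃ i, ∀ j, i ≤ j → (p j).st g n k = v := by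
      refine ⟨(p (i + a)).st g n k, i + a, fun j hj => ?_⟩
      have := ha (j - i) (by omega)
      rwa [show i + (j - i) = j by omega] at this
    have h3 : limSt p g n k = h2.choose := by
      unfold limSt
      rw [dif_pos h2]
    obtain ⟨b, hb⟩ := h2.choose_spec
    refine ⟨max i b, le_max_left _ _, fun j hj => ?_⟩
    rw [h3]
    exact hb j ((le_max_right _ _).trans hj)
  have hstle : ∀ i, ∀ g ∈ (p i).Z, ∀ n k, (limSt p g n k).le ((p i).st g n k) := by
    intro i g hg n k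
    obtain ⟨i', h1, h2⟩ := hst i g hg n k
    rw [← h2 i' le_rfl]
    exact (hle i i' h1).st g hg n k
  have hstF : ∀ i, ∀ t ∈ Ψ i, limSt p t.1 t.2.1 t.2.2 = (p i).st t.1 t.2.1 t.2.2 := by
    intro i t ht
    obtain ⟨i', h1, h2⟩ := hst i t.1 (hpos i t ht) t.2.1 t.2.2
    rw [← h2 i' le_rfl]
    exact (hF' i i' h1).2 t ht
  -- the height
  obtain ⟨H, hH1, hH2⟩ := lim_lub (fun i => (p i).ht)
  have hx : ∀ ξ, ∃ f : ℕ → ℕ, ∃ f' : ℕ → ℕ, ∀ i, ξ < (p i).ht → (p i).x ξ = f ∧ (p i).z ξ = f' := by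
    intro ξ
    by_cases h : ∃ i, ξ < (p i).ht
    · obtain ⟨i, hi⟩ := h
      refine ⟨(p i).x ξ, (p i).z ξ, fun j hj => ?_⟩
      rcases le_total i j with hij | hij
      · exact ⟨(hle i j hij).x ξ hi, (hle i j hij).z ξ hi⟩
      · exact ⟨((hle j i hij).x ξ hj).symm, ((hle j i hij).z ξ hj).symm⟩
    · refine ⟨fun _ => 0, fun _ => 0, fun i hi => absurd ⟨i, hi⟩ h⟩
  choose X Zf hXZ using hx
  let q : RC :=
    { ht := H
      x := X
      z := Zf
      Pi := (⋃ i, (p i).Pi) ∪ ((fun t : Crd × ℕ => limO p t.1 t.2) '' ((⋃ i, (p i).Z) ×ˢ Set.univ) ∪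
        (fun t : Crd × ℕ => limH p t.1 t.2) '' ((⋃ i, (p i).Z) ×ˢ Set.univ))
      Z := ⋃ i, (p i).Z
      dl := fun _ => H
      st := limSt p }
  have hcZ : (⋃ i, (p i).Z).Countable := Set.countable_iUnion fun i => (hp i).1.cZ
  have hbig : ∀ i, ∀ ξ < H, ∃ j, i ≤ j ∧ ξ < (p j).ht := by
    intro i ξ hξ
    obtain ⟨j, hj⟩ := hH2 ξ hξ
    exact ⟨max i j, le_max_left _ _, hj.trans_le (hle j _ (le_max_right _ _)).ht⟩
  have hqle : ∀ i, q.Le (p i) := by
    intro i
    refine ⟨hH1 i, fun ξ hξ => ((hXZ ξ i hξ).1).symm, fun ξ hξ => ((hXZ ξ i hξ).2).symm, ?_, ?_, ?_, ?_, ?_⟩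
    · intro S hS
      exact Or.inl (Set.mem_iUnion.mpr ⟨i, hS⟩)
    · intro ξ h1 h2 S hS
      obtain ⟨j, hij, hj⟩ := hbig i ξ h2
      have h3 := (hle i j hij).av ξ h1 hj S hS
      rw [(hXZ ξ j hj).1] at h3
      exact h3
    · exact Set.subset_iUnion (fun i => (p i).Z) i
    · intro g hg
      exact ((hp i).2.2 g hg).1.dht.trans (hH1 i)
    · intro g hg n k
      exact hstle i g hg n k
  have hVG : q.VG := by
    refine ⟨?_, ?_, hcZ, ?_, ?_⟩
    · refine (Set.countable_iUnion fun i => (hp i).1.cPi).union (Set.Countable.union ?_ ?_)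
      · exact (hcZ.prod Set.countable_univ).image _
      · exact (hcZ.prod Set.countable_univ).image _
    · intro S hS k
      rcases hS with hS | hS | hS
      · obtain ⟨i, hi⟩ := Set.mem_iUnion.mp hS
        exact (hp i).1.sl S hi k
      · obtain ⟨t, _, rfl⟩ := hS
        exact limO_card p _ _ k
      · obtain ⟨t, _, rfl⟩ := hS
        exact limH_card p _ _ k
    · intro ξ hξ k
      obtain ⟨i, _, hi⟩ := hbig 0 ξ hξ
      have := (hp i).1.xb ξ hi k
      rw [(hXZ ξ i hi).1] at this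
      exact this
    · intro ξ hξ η hη hne
      obtain ⟨i, _, hi⟩ := hbig 0 ξ hξ
      obtain ⟨j, hij, hj⟩ := hbig i η hη
      have hi' : ξ < (p j).ht := hi.trans_le (hle i j hij).ht
      have := (hp j).1.ed ξ hi' η hj hne
      rw [(hXZ ξ j hi').1, (hXZ η j hj).1] at this
      exact this
  have hgood : ∀ g ∈ q.Z, ∃ i, g ∈ (p i).Z := fun g hg => Set.mem_iUnion.mp hg
  refine ⟨q, ⟨hVG, ?_, ?_⟩, fun i => ⟨hqle i, fun t ht => hstF i t ht⟩, hgood⟩
  · intro g hg
    obtain ⟨i, hi⟩ := hgood g hg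
    exact (hp i).2.1 hi
  · intro g hg
    obtain ⟨i, hi⟩ := hgood g hg
    -- for every `ξ` there is a stage with `ξ` below the bound
    have hstage : ∀ ξ < H, ∃ j, i ≤ j ∧ ξ < (p j).dl g := by
      intro ξ hξ
      obtain ⟨j, hij, hj⟩ := hbig i ξ hξ
      obtain ⟨j', hjj', hj'⟩ := hdl j g ((hle i j hij).Z hi) ξ hj
      exact ⟨j', hij.trans hjj', hj'⟩
    refine ⟨⟨le_rfl, ?_, ?_, ?_, ?_, ?_, ?_⟩, ?_⟩
    · intro n k
      exact St.leg_mono (hstle i g hi n k) (((hp i).2.2 g hi).1.leg n k)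
    · intro ξ hξ n
      obtain ⟨j, hij, hj⟩ := hstage ξ hξ
      have hgj : g ∈ (p j).Z := (hle i j hij).Z hi
      have hc := ((hp j).2.2 g hgj).1
      have hx' : (p j).x ξ = X ξ := (hXZ ξ j (hj.trans_le hc.dht)).1
      filter_upwards [hc.c1 ξ hj n] with k hk
      rw [hx'] at hk
      exact St.excl_mono (hstle j g hgj n k) hk
    · intro ξ h1 h2
      exact absurd h2 (not_lt.2 h1)
    · intro ξ h1 h2
      exact absurd h2 (not_lt.2 h1)
    · intro n
      refine ⟨limO p g n, Or.inr (Or.inl ⟨(g, n), ⟨hg, trivial⟩, rfl⟩), fun N => ?_⟩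
      obtain ⟨j, hij, k, B, hk, hmem, hB, hcard⟩ := hopen i g hi n N
      have h1 : limSt p g n k = .opn B := by rw [hstF j (g, n, k) hmem]; exact hB
      have h2 : limO p g n k = Finset.range (nb k) \ B := by
        unfold limO
        rw [h1]
        simp only
        rw [if_pos (by omega)]
      refine ⟨k, hk, B, h1, ?_, ?_⟩
      · rw [h2]
      · rw [h2]; exact hcard
    · intro n
      refine ⟨limH p g n, Or.inr (Or.inr ⟨(g, n), ⟨hg, trivial⟩, rfl⟩), ?_⟩
      filter_upwards [eventually_ge_atTop 1] with k hk i' hi'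
      have h1 : limSt p g n k = .hit i' := hi'
      have h2 : limH p g n k = {i'} := by
        unfold limH
        rw [h1]
        simp only
        rw [if_pos hk]
      rw [h2]
      exact Finset.mem_singleton_self _
    · rw [Ok_iff]
      refine ⟨((Ok_iff g (p i)).1 ((hp i).2.2 g hi).2).1, fun ξ hξ => ?_⟩
      obtain ⟨j, hij, hj⟩ := hstage ξ hξ
      have hgj : g ∈ (p j).Z := (hle i j hij).Z hi
      have hc := (hp j).2.2 g hgj
      exact hM g (p j) q ξ ((hp j).lg.res _) hgj (hj.trans_le hc.1.dht) (hqle j)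
        (((Ok_iff g (p j)).1 hc.2).2 ξ hj)

end SSA
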